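import Pool.Agent.Y191.DimGe
import Pool.Agent.Y191.LcRam

/-!
# Nonvanishing for pairs whose fibres correspond to moving log canonical arrangements

Let `(X, Δ)` be a projective pair, `X` normal, `Δ` any effective `ℚ`-divisor (for instance a log
canonical pair with nef `K_X + Δ`), of any dimension, `X ⇢ P^v` a rational map whose image `Y`, any
subvariety of `P^v`, has dimension `p`. Suppose:

* (the base) `ℓ i = 0`, `i < q`, are hyperplanes in general position which do not contain `Y`, such
  that the points `ℓ i` impose independent conditions on the forms of degree `d`, with weights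
  `wt i ≥ 0` whose sum is at least `(p + 1) γ`, `γ = (v - p + d).choose (v - p)`; if `e i` is the
  multiplicity of the hyperplane `ℓ i = 0` at the prime divisor `P` of `X` (for the divisors without
  fixed component which the map defines) then
  `min (#{i | e i ≠ 0}) γ ≤ γ Δ_P + ∑ i, (1 - wt i) e i`;
  or: `p ≥ 1`, there are more than `(v + Q).choose v` general hyperplanes, `2 v m ≤ Q (m - 1)`,
  `m ≥ 2`, and each `e i` is `0` or at least `m (1 - Δ_P)`;
* (the fibres) there is a correspondence between the pair and a relative product of projective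
  spaces with log canonical arrangements: a variety `X'` with a generically finite map `X' ⇢ X` (any
  finite extension `K'` of the function field `K`, ramified anywhere) and a generically finite map
  over `Y` of `X'` to `Y' × P^{r_1} × ... × P^{r_c}`, `r_j ≥ 1`, `Y'` finite over `Y`, and in each
  `P^{r_j}` there are any hyperplanes `A j i = 0` which move with the point of `Y'`, with weights
  `w j i` in `[0, 1]` such that the arrangement is log canonical: the sum of the weights of
  hyperplanes with a common point is at most the codimension of their intersection. The two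
  canonical divisors are compared at the places of `K'`: if `Q` is a place over a prime divisor `P` of
  `X` which dominates `Y`, with ramification index `ε`, and `e j i` are the multiplicities of the
  hyperplanes at `Q`, not all zero, then `ε (1 - Δ_P)` is at most `∑ (mx_j - ∑ w j i e j i)`, where
  `mx_j` is the greatest sum of `r_j + 1` of the `e j i` whose hyperplanes have no common point (at
  most `1`, if all `e j i` are zero); and if `Q` is a place over a prime divisor of
  `P^{r_1} × ... × P^{r_c}` over `Y`, with ramification index `ρ`, and with ramification index `ε` over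
  the place `P` of `K`, then `ρ - ε α ≤ ∑ w j i e j i`, where `α` is the log discrepancy of `(X, Δ)`
  along `P`.

Then the following are equivalent: `K_X + Δ` is pseudo-effective (in particular: nef);
`κ(X, K_X + Δ) ≥ 0`; `∑ i, w j i ≥ r_j + 1` for all `j`. In this case `κ(X, K_X + Δ)` is at least the
sum `l` of the `r_j` with `∑ i, w j i > r_j + 1`, and if the sum of the weights `wt i` is greater
than `(p + 1) γ`, or in the second case, then `κ(X, K_X + Δ) = ν(X, K_X + Δ) = p + l`.

The geometric generic fibre of the pair over `Y` may be, for instance, birational to a quotient by a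
finite group of a product of covers of projective spaces which are ramified over arbitrary log
canonical arrangements (all arrangements of lines in the plane, the boundaries of the moduli spaces
of pointed rational curves), with a boundary which is supported over the arrangement, of any Kodaira
dimension; the moduli and the monodromy over `Y` may be arbitrary. The starting repository has this
for `Δ = 0`, and for pairs only for hyperplanes in general position along the fibres, and only if the
sum of the weights `wt i` is greater than `(p + 1) γ`. If it is equal to `(p + 1) γ` (for `Y = P^p` the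
orbifold base may be of Calabi-Yau type) then nonvanishing is new also for these pairs.

The language and the definitions of `Pool.Agent.Y172` are used: `X` is given by the homogeneous
coordinates `y` of its generic point, with values in the function field `K` of `X`; the prime divisors
of `X` are places `P` of `K`, `P.ord` is the order along `P`. `PseudoEffective` means that for
some effective divisor `A` the divisors `m (K_X + Δ) + A` have nonzero sections for infinitely many
`m`.

Proof: by the Rado-Horn theorem the weight vector of a log canonical arrangement, multiplied by a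
positive integer, is a sum of indicator vectors of bases, so that there are products of determinants
of logarithmic derivatives of the linear forms along the fibres of `X'` which are sections along the
fibres (`lc_low`); their norms to `K` are multiplied by the form of the base (`lc_small`,
`lc_general`). For the upper bound, the sections of `m (K_X + Δ) + A` are pulled back to `X'`; their
traces to the field of `Y' × P^{r_1} × ... × P^{r_c}`, multiplied by the forms of the arrangement to
the powers `⌈m w j i⌉`, are polynomials of bounded degree in the coordinates of the factors with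
`∑ i, w j i = r_j + 1`, up to a denominator which does not depend on `m`, and they vanish if
`∑ i, w j i < r_j + 1` for some `j` (`lc_ab`, `lc_nv`).
-/

set_option autoImplicit false

open FF Pool.Agent.W602.GT Pool.Agent.Y172 Pool.Agent.Y191

namespace Pool.Agent.Results.MP_bc213e_ag.FibredArrangementPairs

section

variable {K : Type} [Field K] [Algebra ℂ K] {N : ℕ}

/-- `(X, Δ)` is a projective pair of dimension `n`: `X` is normal, with generic point `y`, and `Δ` is
an effective `ℚ`-divisor. -/
def IsPair (y : Fin (N + 1) → K) (n : ℕ) (Δ : Place ℂ K → ℚ) : Prop :=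
  NormalModel y ∧ Algebra.trdeg ℂ K = n ∧ Effective y Δ

/-- The `b j` are the coordinates of a rational map whose image has dimension `p` and is not
contained in one of the hyperplanes `ℓ i = 0`. -/
def IsMap {v q : ℕ} (ℓ : Fin q → Fin (v + 1) → ℂ) (b : Fin (v + 1) → K) (p : ℕ) : Prop :=
  (∀ i, lf (ℓ i) b ≠ 0) ∧ (∃ j, b j ≠ 0) ∧ Algebra.trdeg ℂ (RF ℂ b) = p

/-- There is a finite extension `K'` of `K`, and the `u ⟨j, k⟩` are the affine coordinates of a
generically finite map, over the variety with the function field `L`, of a variety with the function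
field `K'` to a product of projective spaces of dimensions `r j ≥ 1`; `A j i` are the coefficients of
hyperplanes, algebraic over `L`, with weights `w j i` in `[0, 1]` such that the arrangement is log
canonical (`LcArr`). The pull back of `K_X + Δ` to `K'` is compared with the pull back of the
canonical divisor of the relative product plus `∑ w j i (A j i = 0)` at the places over the prime
divisors of `X` which are trivial on `L` (`LcHor`) and at the places over the prime divisors of the
product (`Cor`). -/
def Fibres (y : Fin (N + 1) → K) (n : ℕ) (Δ : Place ℂ K → ℚ) (L : IntermediateField ℂ K) {c : ℕ}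
    (r s : Fin c → ℕ) (w : ∀ j, Fin (s j) → ℚ) : Prop :=
  (∀ j, 1 ≤ r j ∧ ∀ i, 0 ≤ w j i ∧ w j i ≤ 1) ∧
  ∃ (K' : Type) (_ : Field K') (_ : Algebra ℂ K') (_ : Algebra K K') (_ : IsScalarTower ℂ K K')
    (_ : FiniteDimensional K K') (A : ∀ j, Fin (s j) → Fin (r j + 1) → K')
    (u : (Σ j, Fin (r j)) → K'),
    LcArr (upF K' L) A w ∧ IsTranscendenceBasis (upF K' L) u ∧
    LcHor L A u w {P | IsPrimeDivisor y P} (fun P => (Δ P : ℝ)) ∧
    Cor y n Δ (upF K' L) A u w

/-- the sum of the dimensions `r j` for which the sum of the weights is greater than `r j + 1` -/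
def big {c : ℕ} (r s : Fin c → ℕ) (w : ∀ j, Fin (s j) → ℚ) : ℕ :=
  ∑ j, if (r j + 1 : ℚ) < ∑ i, w j i then r j else 0

/-- `K_X + Δ` is pseudo-effective: for some effective divisor `A` there are infinitely many `m` such
that `m (K_X + Δ) + A` has a nonzero section. -/
def PseudoEffective (y : Fin (N + 1) → K) (n : ℕ) (Δ : Place ℂ K → ℚ) : Prop :=
  ∃ A, Effective y A ∧ ∀ m₁ : ℕ, ∃ m, m₁ ≤ m ∧ ∃ ω, IsSection y n m (m • Δ + A) ω ∧ ω ≠ 0

/-- `K_X + Δ` is pseudo-effective if and only if its Kodaira dimension is not `-∞`, if and only if the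
sums of the weights are at least `r j + 1`, and then the Kodaira dimension is at least `big`. -/
def Nonvanishing (y : Fin (N + 1) → K) (n : ℕ) (Δ : Place ℂ K → ℚ) {c : ℕ} (r s : Fin c → ℕ)
    (w : ∀ j, Fin (s j) → ℚ) : Prop :=
  (PseudoEffective y n Δ ↔ 0 ≤ kodairaDim y n Δ) ∧
  (0 ≤ kodairaDim y n Δ ↔ ∀ j, (r j + 1 : ℚ) ≤ ∑ i, w j i) ∧
  (0 ≤ kodairaDim y n Δ → ((big r s w : ℕ) : WithBot ℕ) ≤ kodairaDim y n Δ)

/-- If the Kodaira dimension of `K_X + Δ` is not `-∞` then it is `p + big`, and this is also the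
numerical dimension (with respect to any effective integral divisor `A`). -/
def Dimensions (y : Fin (N + 1) → K) (n p : ℕ) (Δ : Place ℂ K → ℚ) {c : ℕ} (r s : Fin c → ℕ)
    (w : ∀ j, Fin (s j) → ℚ) : Prop :=
  0 ≤ kodairaDim y n Δ → kodairaDim y n Δ = ((p + big r s w : ℕ) : WithBot ℕ) ∧
    ∀ A, Effective y A → Integral y A → numericalDim y n Δ A = ((p + big r s w : ℕ) : EReal)

end

theorem exists_idx {c : ℕ} (r q : Fin c → ℕ) (w : ∀ j, Fin (q j) → ℚ) :
    ∃ κ : Fin (big r q w) → Σ j, Fin (r j), Function.Injective κ ∧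
      ∀ i, (r (κ i).1 + 1 : ℚ) < ∑ i', w (κ i).1 i' := by
  classical
  have h1 : Fintype.card {x : Σ j, Fin (r j) // (r x.1 + 1 : ℚ) < ∑ i, w x.1 i} = big r q w := by
    rw [Fintype.card_subtype, Finset.card_filter, Fintype.sum_sigma]
    refine Finset.sum_congr rfl fun j _ => ?_
    change ∑ _k : Fin (r j), (if (r j + 1 : ℚ) < ∑ i, w j i then 1 else 0) = _
    rw [Finset.sum_const, Finset.card_univ, Fintype.card_fin, smul_eq_mul, mul_ite, mul_one,
      mul_zero]
  let φ := Fintype.equivFinOfCardEq h1
  exact ⟨fun i => (φ.symm i : Σ j, Fin (r j)), fun a b hab => φ.symm.injective (Subtype.ext hab),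
    fun i => (φ.symm i).2⟩

/-- divisors with sections are pseudo-effective -/
theorem psef_of {K : Type} [Field K] [Algebra ℂ K] {N n : ℕ} {y : Fin (N + 1) → K}
    {Δ : Place ℂ K → ℚ} (h : 0 ≤ kodairaDim y n Δ) : PseudoEffective y n Δ := by
  have h00 : Effective y (0 : Place ℂ K → ℚ) := ⟨fun _ _ => le_rfl, by simp⟩
  refine ⟨0, h00, ?_⟩
  by_contra hcon
  rw [(not_psef h00 hcon).1] at h
  exact absurd h (by simp)

section

variable {K : Type} [Field K] [Algebra ℂ K] {N p c : ℕ} {y : Fin (N + 1) → K}
  {Δ : Place ℂ K → ℚ} {r s : Fin c → ℕ} {w : ∀ j, Fin (s j) → ℚ} {L : IntermediateField ℂ K}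
  {K' : Type} [Field K'] [Algebra ℂ K'] [Algebra K K'] [IsScalarTower ℂ K K']
  [FiniteDimensional K K'] {A : ∀ j, Fin (s j) → Fin (r j + 1) → K'}
  {u : (Σ j, Fin (r j)) → K'}

theorem nonvanishing_of (hy : IsPair y (p + ∑ j, r j) Δ)
    (hw : ∀ j, 1 ≤ r j ∧ ∀ i, 0 ≤ w j i ∧ w j i ≤ 1)
    (hA : LcArr (upF K' L) A w) (hu : IsTranscendenceBasis (upF K' L) u)
    (hC : Cor y (p + ∑ j, r j) Δ (upF K' L) A u w)
    (hK : (∀ j, (r j + 1 : ℚ) ≤ ∑ i, w j i) → KodairaGe (p + ∑ j, r j) {P | IsPrimeDivisor y P}
      (fun P => (Δ P : ℝ)) (big r s w)) : Nonvanishing y (p + ∑ j, r j) Δ r s w := by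
  have hkod : (∀ j, (r j + 1 : ℚ) ≤ ∑ i, w j i) →
      ((big r s w : ℕ) : WithBot ℕ) ≤ kodairaDim y (p + ∑ j, r j) Δ := fun h =>
    lc_nv hy.1 hy.2.1 hy.2.2 hA.1 hu (fun j => (hw j).1) (fun j i => ((hw j).2 i).1)
      (fun j i => ((hw j).2 i).2) hC h (Nat.le_add_left _ _) (hK h)
  have h0 : (0 : WithBot ℕ) ≤ ((big r s w : ℕ) : WithBot ℕ) := by exact_mod_cast Nat.zero_le _
  have hws : PseudoEffective y (p + ∑ j, r j) Δ → ∀ j, (r j + 1 : ℚ) ≤ ∑ i, w j i := by
    rintro ⟨A', hA', h⟩
    by_contra hcon
    push Not at hcon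
    obtain ⟨m0, hm0⟩ := (lc_sec hy.1 hy.2.1 hy.2.2 hA.1 hu (fun j => (hw j).1)
      (fun j i => ((hw j).2 i).1) (fun j i => ((hw j).2 i).2) hC).1 hcon A' hA'
    obtain ⟨m, hm, ω, hω, hω0⟩ := h m0
    exact hω0 (hm0 m hm ω hω)
  exact ⟨⟨fun h => h0.trans (hkod (hws h)), psef_of⟩,
    ⟨fun h => hws (psef_of h), fun h => h0.trans (hkod h)⟩, fun h => hkod (hws (psef_of h))⟩

theorem dimensions_of (hy : IsPair y (p + ∑ j, r j) Δ)
    (hw : ∀ j, 1 ≤ r j ∧ ∀ i, 0 ≤ w j i ∧ w j i ≤ 1)
    (hA : LcArr (upF K' L) A w) (hu : IsTranscendenceBasis (upF K' L) u)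
    (hC : Cor y (p + ∑ j, r j) Δ (upF K' L) A u w)
    (hK : (∀ j, (r j + 1 : ℚ) ≤ ∑ i, w j i) → KodairaGe (p + ∑ j, r j) {P | IsPrimeDivisor y P}
      (fun P => (Δ P : ℝ)) (p + big r s w)) : Dimensions y (p + ∑ j, r j) p Δ r s w := by
  obtain ⟨h1, h2⟩ := lc_ab hy.1 hy.2.1 hy.2.2 hA.1 hu (fun j => (hw j).1)
    (fun j i => ((hw j).2 i).1) (fun j i => ((hw j).2 i).2) hC
  intro h0
  have h : ∀ j, (r j + 1 : ℚ) ≤ ∑ i, w j i := by
    by_contra hcon
    push Not at hcon
    rw [(h1 hcon).1] at h0
    exact absurd h0 (by simp)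
  refine h2 (p + big r s w) h ?_ (hK h)
  rw [add_assoc, big, ← Finset.sum_add_distrib]
  congr 1
  refine Finset.sum_congr rfl fun j _ => ?_
  rcases lt_or_eq_of_le (h j) with h3 | h3
  · rw [if_pos h3, if_neg h3.ne', add_zero]
  · rw [if_neg (not_lt.2 h3.symm.le), if_pos h3.symm, zero_add]

end

/-- the Kodaira dimension is not `-∞` if it is large -/
theorem kodairaGe_mono {K : Type} [Field K] [Algebra ℂ K] {d : ℕ} {X : Set (Place ℂ K)}
    {δ : Place ℂ K → ℝ} {a b : ℕ} (hab : a ≤ b) (h : KodairaGe d X δ b) : KodairaGe d X δ a := by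
  obtain ⟨N, hN, ω, hω, D, hD, hind⟩ := h
  refine ⟨N, hN, fun j => ω (Fin.castLE (by omega) j), fun j => hω _, D, hD, ?_⟩
  have h1 := hind.comp (Fin.castLE hab) (Fin.castLE_injective hab)
  exact h1

/-- **Nonvanishing.** Let `(X, Δ)` be a projective pair of dimension `p + ∑ j, r j`, `b` the
coordinates of a rational map `X ⇢ P^v` whose image has dimension `p`, and let the fibres be as in
`Fibres`.

(1) Let `ℓ i = 0` be hyperplanes in general position which do not contain the image and impose
independent conditions on the forms of degree `d`, with weights `wt i ≥ 0` whose sum is at least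
`(p + 1) * γ`, where `γ = (v - p + d).choose (v - p)`, and let the multiplicities `e i` satisfy
`min (#{i | e i ≠ 0}) γ ≤ γ Δ_P + ∑ i, (1 - wt i) e i` at all prime divisors of `X`. Then `K_X + Δ` is
pseudo-effective if and only if `κ(K_X + Δ) ≥ 0`, if and only if `r j + 1 ≤ ∑ i, w j i` for all `j`,
and then `κ(K_X + Δ)` is at least the sum `l` of the `r j` with `r j + 1 < ∑ i, w j i`. If the sum of
the weights `wt i` is greater than `(p + 1) * γ` then moreover `κ(K_X + Δ) = ν(K_X + Δ) = p + l`.

(2) Let `m ≥ 2`, `2 * v * m ≤ Q * (m - 1)` and `(v + Q).choose v < q`. For `q` general hyperplanes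
(some polynomial `Ψ` does not vanish at the coefficients) the following holds: if `p ≥ 1` and the
multiplicities `e i` at the prime divisors `P` of `X` are `0` or at least `m * (1 - Δ_P)`, then the
same is true. -/
theorem result {v q : ℕ} (hv : 1 ≤ v) :
    (∀ d p : ℕ, 0 < d → ∀ ℓ : Fin q → Fin (v + 1) → ℂ, Independent d ℓ → GeneralPosition ℓ →
      v + 1 ≤ q → ∀ (K : Type) [Field K] [Algebra ℂ K] (N c : ℕ) (r s : Fin c → ℕ)
      (y : Fin (N + 1) → K) (Δ : Place ℂ K → ℚ), IsPair y (p + ∑ j, r j) Δ →
      ∀ b : Fin (v + 1) → K, IsMap ℓ b p → ∀ wt : Fin q → ℚ, (∀ i, 0 ≤ wt i) →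
      (((p + 1) * (v - p + d).choose (v - p) : ℕ) : ℚ) ≤ ∑ i, wt i →
      (∀ P, IsPrimeDivisor y P → ∀ (c : ℤ) (e : Fin q → ℕ), OrdData P ℓ b c e →
        ((min (Finset.univ.filter fun i => e i ≠ 0).card ((v - p + d).choose (v - p)) : ℕ) : ℚ) ≤
          ((v - p + d).choose (v - p) : ℕ) * Δ P + ∑ i, (1 - wt i) * e i) →
      ∀ w : ∀ j, Fin (s j) → ℚ, Fibres y (p + ∑ j, r j) Δ (RF ℂ b) r s w →
      Nonvanishing y (p + ∑ j, r j) Δ r s w ∧
        ((((p + 1) * (v - p + d).choose (v - p) : ℕ) : ℚ) < ∑ i, wt i →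
          Dimensions y (p + ∑ j, r j) p Δ r s w)) ∧
    ∀ m Q : ℕ, 2 ≤ m → 2 * v * m ≤ Q * (m - 1) → (v + Q).choose v < q →
      ∃ Ψ : MvPolynomial (Fin q × Fin (v + 1)) ℂ, Ψ ≠ 0 ∧
        ∀ ℓ : Fin q → Fin (v + 1) → ℂ, MvPolynomial.eval (fun x => ℓ x.1 x.2) Ψ ≠ 0 →
        ∀ (K : Type) [Field K] [Algebra ℂ K] (N p c : ℕ) (r s : Fin c → ℕ)
        (y : Fin (N + 1) → K) (Δ : Place ℂ K → ℚ), 1 ≤ p → IsPair y (p + ∑ j, r j) Δ →
        ∀ b : Fin (v + 1) → K, IsMap ℓ b p →
        (∀ P, IsPrimeDivisor y P → ∀ (c : ℤ) (e : Fin q → ℕ), OrdData P ℓ b c e →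
          ∀ i, e i = 0 ∨ m * (1 - Δ P) ≤ e i) →
        ∀ w : ∀ j, Fin (s j) → ℚ, Fibres y (p + ∑ j, r j) Δ (RF ℂ b) r s w →
        Nonvanishing y (p + ∑ j, r j) Δ r s w ∧ Dimensions y (p + ∑ j, r j) p Δ r s w := by
  constructor
  · rintro d p hd ℓ hI hg hq K _ _ N c r s y Δ hy b ⟨hl, hb, htr⟩ wt hwt hlt hmult w
      ⟨hw, K', _, _, _, _, _, A, u, hA, hu, hH, hC⟩
    obtain ⟨κ, hκ, hκs⟩ := exists_idx r s w
    have key := fun hws : ∀ j, (r j + 1 : ℚ) ≤ ∑ i, w j i =>
      lc_small (δ := fun P => (Δ P : ℝ)) (X := {P | IsPrimeDivisor y P}) hd hI hg hq hl hb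
      htr hy.2.1 hwt hlt (fun P hP => by exact_mod_cast hy.2.2.1 P hP)
      (fun P hP _ c e ho => by
        have h3 := hmult P hP c e ho
        have h4 := (Rat.cast_le (K := ℝ)).2 h3
        push_cast at h4 ⊢
        exact h4) hA finSigmaFinEquiv hu (fun j i => ((hw j).2 i).1) hws hκ hκs hH
    exact ⟨nonvanishing_of hy hw hA hu hC fun hws => (key hws).1,
      fun hlt' => dimensions_of hy hw hA hu hC fun hws => (key hws).2 hlt'⟩
  · intro m Q hm hQ hq
    obtain ⟨Ψ, hΨ, h⟩ := lc_general (n := v) (q' := q) hv hm hQ hq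
    refine ⟨Ψ, hΨ, ?_⟩
    rintro ℓ hℓ K _ _ N p c r s y Δ hp hy b ⟨hl, hb, htr⟩ hmult w
      ⟨hw, K', _, _, _, _, _, A, u, hA, hu, hH, hC⟩
    obtain ⟨κ, hκ, hκs⟩ := exists_idx r s w
    have key := fun hws : ∀ j, (r j + 1 : ℚ) ≤ ∑ i, w j i =>
      h ℓ hℓ K p (∑ j, r j) (big r s w) hp hy.2.1 b hl hb htr {P | IsPrimeDivisor y P}
      (fun P => (Δ P : ℝ)) (fun P hP => by exact_mod_cast hy.2.2.1 P hP)
      (fun P hP _ c e ho i => by
        rcases hmult P hP c e ho i with h1 | h1
        · exact Or.inl h1
        · right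
          have h2 := (Rat.cast_le (K := ℝ)).2 h1
          push_cast at h2
          exact h2) K' c r s A u w hA finSigmaFinEquiv hu (fun j i => ((hw j).2 i).1) hws κ hκ
      hκs hH
    exact ⟨nonvanishing_of hy hw hA hu hC fun hws => kodairaGe_mono (Nat.le_add_left _ _) (key hws),
      dimensions_of hy hw hA hu hC key⟩

end Pool.Agent.Results.MP_bc213e_ag.FibredArrangementPairs
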