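import Pool.Agent.K3h50.MF.Fin
import Pool.Agent.Y191.LcRam

/-!
# Nonvanishing for pairs with many powerful members of a linear system and fibres which correspond to
moving log canonical arrangements

Let `(X, Δ)` be a projective pair, `X` normal, `Δ` any effective `ℚ`-divisor (for instance a log
canonical pair with nef `K_X + Δ`), and `|V|` a linear system on `X` without fixed components, of
dimension `n`, whose rational map has an image `Y` of any dimension `d`, an arbitrary nondegenerate
subvariety of `n`-dimensional projective space; the general fibres of `X ⇢ Y` may have any dimension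
`dim X - d`. Suppose:

* (the base) `D i` (`i < q`) are finitely many members of `|V|`, in arbitrary position, with
  rational weights `β i ≥ 0` such that the members in a proper linear subsystem, given by a subspace
  `F` of `V`, have total weight at most `dim F` (for members in general position: `β i = 1`); with
  `G` groups of members, each of which spans `V`, such that at most `γ G dim F` of the groups meet a
  given proper subsystem `F` (in general position: `γ = 1 / G`, for `G` disjoint groups of `n + 1`
  members; always: `G = 1`, `γ = 1`); and with rational numbers `0 ≤ t i ≤ 1` such that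
  `∑ β i (t i) = n + 1`; for all prime divisors `P` of `X` and all `i` such that `P` is a component of
  `D i`

  `(1 - t i) mult_P (D i) ≥ σ (1 - Δ_P)`,   `σ ≥ (n - d + 1) (1 + γ (n - d) / 2)`;

* (the fibres) there is a correspondence between the pair and a relative product of projective
  spaces with log canonical arrangements: a variety `X'` with a generically finite map `X' ⇢ X` (any
  finite extension `K'` of the function field `K`, ramified anywhere) and a generically finite map
  over `Y` of `X'` to `Y' × P^{r_1} × ... × P^{r_c}`, `r_j ≥ 1`, `Y'` finite over `Y`, and in each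
  `P^{r_j}` there are any hyperplanes `B j i = 0` which move with the point of `Y'`, with weights
  `w j i` in `[0, 1]` such that the arrangement is log canonical: the sum of the weights of
  hyperplanes with a common point is at most the codimension of their intersection. The two
  canonical divisors are compared at the places of `K'`: if `Q` is a place over a prime divisor `P` of
  `X` which dominates `Y`, with ramification index `ε`, and `e j i` are the multiplicities of the
  hyperplanes at `Q`, not all zero, then `ε (1 - Δ_P)` is at most `∑ (mx_j - ∑ w j i e j i)`, where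
  `mx_j` is the greatest sum of `r_j + 1` of the `e j i` whose hyperplanes have no common point (at
  most `1`, if all `e j i` are zero); and if `Q` is a place over a prime divisor of
  `P^{r_1} × ... × P^{r_c}` over `Y`, with ramification index `ρ`, and with ramification index `ε` over
  the place `P` of `K`, then `ρ - ε α ≤ ∑ w j i e j i`, where `α` is the log discrepancy of `(X, Δ)`
  along `P`.

Then the following are equivalent: `K_X + Δ` is pseudo-effective (in particular: nef);
`κ(X, K_X + Δ) ≥ 0`; `∑ i, w j i ≥ r_j + 1` for all `j`. In this case `κ(X, K_X + Δ)` is at least the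
sum `l` of the `r_j` with `∑ i, w j i > r_j + 1`, and if `σ` is greater than the bound and the `t i` are
less than `1` then `κ(X, K_X + Δ) = ν(X, K_X + Δ) = d + l`.

For instance, the fibres may be arbitrary products of double covers of the line, or of cyclic covers,
of any genus and with any boundary over the branch points, or quotients by finite groups of covers
of projective spaces over arbitrary arrangements; the moduli and the monodromy may be arbitrary. For
members in general position with `mult_P (D i) ≥ m i (1 - Δ_P)` the condition on the base is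
`∑ max (0, 1 - σ / m i) ≥ n + 1`. In the theorems of the starting repository on linear systems with
powerful members and positive dimensional fibres the fibres are products of double covers and
`Δ = 0` (`MP_a58813_ag.DoubleCovers`), or very affine outside of the boundary
(`MP_badc2d_ag.HighMultiplicityAbundance`), and for an arrangement with one component the
multiplicities are at least `(n + 2) (n - d + 1) (n - d + 2) / 2`, for every number of members; here
this number is replaced by a bound which tends to the truncation level `n - d + 1` if the number of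
members tends to infinity. The case of generically finite maps, with explicit multiples, is
`ManyPowerfulMembers`.

The language and the definitions of `Pool.Agent.Y172` are used: `X` is given by the homogeneous
coordinates `y` of its generic point, with values in the function field `K` of `X`; the prime divisors
of `X` are places `P` of `K`, `P.ord` is the order along `P`. The linear system is given by the finite
dimensional space `V` of rational functions: if `a` is the minimum of the orders at `P` of the
members of `V` then the multiplicity of `P` in the divisor of the system which is given by `f ∈ V` is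
`P.ord f - a`.

Proof (`Pool.Agent.K3h50.MF`). The form of the base is a power of the product of `G` generalised
Wronskians divided by a product of powers of the members, as in `ManyPowerfulMembers`. The functions
which appear are constant along the fibres of `X ⇢ Y`, and for the vector fields of a frame adapted to
the fibration the words of the Wronskians do not leave these functions; for arbitrary vector fields
of `X` the form is multiplied by a power of the determinant of their components along the base. It is
multiplied by norms of products of determinants of logarithmic derivatives along the fibres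
(`lc_low`). The upper bounds are `lc_ab`, `lc_sec` of the starting repository.
-/

set_option autoImplicit false

open FF Pool.Agent.W602.GT Pool.Agent.Y172 Pool.Agent.Y191

namespace Pool.Agent.Results.MP_bc213e_ag.FibredPowerfulMembers

section

variable {K : Type} [Field K] [Algebra ℂ K] {N q G : ℕ}

/-- `(X, Δ)` is a projective pair of dimension `n`: `X` is normal, with generic point `y`, and `Δ` is
an effective `ℚ`-divisor. -/
def IsPair (y : Fin (N + 1) → K) (n : ℕ) (Δ : Place ℂ K → ℚ) : Prop :=
  NormalModel y ∧ Algebra.trdeg ℂ K = n ∧ Effective y Δ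

/-- The function field of the image of the rational map which is given by the linear system `V`: the
field generated by the quotients of the members. -/
noncomputable def imageField (V : Submodule ℂ K) : IntermediateField ℂ K :=
  IntermediateField.adjoin ℂ {z : K | ∃ f ∈ V, ∃ g ∈ V, z = f / g}

open Classical in
/-- The weights `β i` of the members `φ i` of `V`: they are not negative and the members in a proper
subspace `F` of `V` have total weight at most `dim F`. -/
def Weights (V : Submodule ℂ K) (φ : Fin q → K) (β : Fin q → ℚ) : Prop :=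
  (∀ i, 0 ≤ β i) ∧ ∀ F : Submodule ℂ K, F < V →
    ∑ i ∈ Finset.univ.filter (fun i => φ i ∈ F), β i ≤ Module.finrank ℂ F

open Classical in
/-- The groups `A s` (`s < G`) of members of `V`: each group spans `V`, and a proper subspace `F` of
`V` contains members from at most `γ G dim F` of the groups. -/
def Groups (V : Submodule ℂ K) (φ : Fin q → K) (A : Fin G → Finset (Fin q)) (γ : ℝ) : Prop :=
  (∀ s, Submodule.span ℂ (φ '' (A s : Set (Fin q))) = V) ∧
  ∀ F : Submodule ℂ K, F < V →
    ((Finset.univ.filter (fun s => ∃ i ∈ A s, φ i ∈ F)).card : ℝ) ≤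
      γ * G * Module.finrank ℂ F

/-- The bound `(n - d + 1) (1 + γ (n - d) / 2)`. -/
noncomputable def bound (d n : ℕ) (γ : ℝ) : ℝ :=
  ((n : ℝ) - d + 1) * (1 + γ * ((n : ℝ) - d) / 2)

/-- The condition on the multiplicities: if the prime divisor `P` of `X` is a component of the divisor
`D i` (the order of `φ i` at `P` is not the minimum `a` of the orders of the members of `V`), then
`σ (1 - Δ P)` is at most `(1 - t i)` times the multiplicity of `P` in `D i`. -/
def Powerful (y : Fin (N + 1) → K) (V : Submodule ℂ K) (φ : Fin q → K) (t : Fin q → ℚ)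
    (Δ : Place ℂ K → ℚ) (σ : ℝ) : Prop :=
  ∀ P, IsPrimeDivisor y P → ∀ a : ℤ, (∀ f ∈ V, f = 0 ∨ a ≤ P.ord f) →
    (∃ f ∈ V, f ≠ 0 ∧ P.ord f = a) → ∀ i, P.ord (φ i) ≠ a →
      σ * (1 - (Δ P : ℝ)) ≤ (1 - (t i : ℝ)) * ((P.ord (φ i) - a : ℤ) : ℝ)

/-- There is a finite extension `K'` of `K`, and the `u ⟨j, k⟩` are the affine coordinates of a
generically finite map, over the variety with the function field `L`, of a variety with the function
field `K'` to a product of projective spaces of dimensions `r j ≥ 1`; `B j i` are the coefficients of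
hyperplanes, algebraic over `L`, with weights `w j i` in `[0, 1]` such that the arrangement is log
canonical (`LcArr`). The pull back of `K_X + Δ` to `K'` is compared with the pull back of the
canonical divisor of the relative product plus `∑ w j i (B j i = 0)` at the places over the prime
divisors of `X` which are trivial on `L` (`LcHor`) and at the places over the prime divisors of the
product (`Cor`). -/
def Fibres (y : Fin (N + 1) → K) (n : ℕ) (Δ : Place ℂ K → ℚ) (L : IntermediateField ℂ K) {c : ℕ}
    (r s : Fin c → ℕ) (w : ∀ j, Fin (s j) → ℚ) : Prop :=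
  (∀ j, 1 ≤ r j ∧ ∀ i, 0 ≤ w j i ∧ w j i ≤ 1) ∧
  ∃ (K' : Type) (_ : Field K') (_ : Algebra ℂ K') (_ : Algebra K K') (_ : IsScalarTower ℂ K K')
    (_ : FiniteDimensional K K') (B : ∀ j, Fin (s j) → Fin (r j + 1) → K')
    (u : (Σ j, Fin (r j)) → K'),
    LcArr (upF K' L) B w ∧ IsTranscendenceBasis (upF K' L) u ∧
    LcHor L B u w {P | IsPrimeDivisor y P} (fun P => (Δ P : ℝ)) ∧
    Cor y n Δ (upF K' L) B u w

/-- the sum of the dimensions `r j` for which the sum of the weights is greater than `r j + 1` -/
def big {c : ℕ} (r s : Fin c → ℕ) (w : ∀ j, Fin (s j) → ℚ) : ℕ :=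
  ∑ j, if (r j + 1 : ℚ) < ∑ i, w j i then r j else 0

/-- `K_X + Δ` is pseudo-effective: for some effective divisor `A` there are infinitely many `m` such
that `m (K_X + Δ) + A` has a nonzero section. -/
def PseudoEffective (y : Fin (N + 1) → K) (n : ℕ) (Δ : Place ℂ K → ℚ) : Prop :=
  ∃ A, Effective y A ∧ ∀ m₁ : ℕ, ∃ m, m₁ ≤ m ∧ ∃ ω, IsSection y n m (m • Δ + A) ω ∧ ω ≠ 0

/-- `K_X + Δ` is pseudo-effective if and only if its Kodaira dimension is not `-∞`, if and only if the
sums of the weights are at least `r j + 1`, and then the Kodaira dimension is at least `big`. -/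
def Nonvanishing (y : Fin (N + 1) → K) (n : ℕ) (Δ : Place ℂ K → ℚ) {c : ℕ} (r s : Fin c → ℕ)
    (w : ∀ j, Fin (s j) → ℚ) : Prop :=
  (PseudoEffective y n Δ ↔ 0 ≤ kodairaDim y n Δ) ∧
  (0 ≤ kodairaDim y n Δ ↔ ∀ j, (r j + 1 : ℚ) ≤ ∑ i, w j i) ∧
  (0 ≤ kodairaDim y n Δ → ((big r s w : ℕ) : WithBot ℕ) ≤ kodairaDim y n Δ)

/-- If the Kodaira dimension of `K_X + Δ` is not `-∞` then it is `d + big`, and this is also the
numerical dimension (with respect to any effective integral divisor `A`). -/
def Dimensions (y : Fin (N + 1) → K) (n d : ℕ) (Δ : Place ℂ K → ℚ) {c : ℕ} (r s : Fin c → ℕ)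
    (w : ∀ j, Fin (s j) → ℚ) : Prop :=
  0 ≤ kodairaDim y n Δ → kodairaDim y n Δ = ((d + big r s w : ℕ) : WithBot ℕ) ∧
    ∀ A, Effective y A → Integral y A → numericalDim y n Δ A = ((d + big r s w : ℕ) : EReal)

end

theorem exists_idx {c : ℕ} (r q : Fin c → ℕ) (w : ∀ j, Fin (q j) → ℚ) :
    ∃ κ : Fin (big r q w) → Σ j, Fin (r j), Function.Injective κ ∧
      ∀ i, (r (κ i).1 + 1 : ℚ) < ∑ i', w (κ i).1 i' := by
  classical
  have h1 : Fintype.card {x : Σ j, Fin (r j) // (r x.1 + 1 : ℚ) < ∑ i, w x.1 i} = big r q w := by
    rw [Fintype.card_subtype, Finset.card_filter, Fintype.sum_sigma]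
    refine Finset.sum_congr rfl fun j _ => ?_
    change ∑ _k : Fin (r j), (if (r j + 1 : ℚ) < ∑ i, w j i then 1 else 0) = _
    rw [Finset.sum_const, Finset.card_univ, Fintype.card_fin, smul_eq_mul, mul_ite, mul_one,
      mul_zero]
  let φ := Fintype.equivFinOfCardEq h1
  exact ⟨fun i => (φ.symm i : Σ j, Fin (r j)), fun a b hab => φ.symm.injective (Subtype.ext hab),
    fun i => (φ.symm i).2⟩

/-- divisors with sections are pseudo-effective -/
theorem psef_of {K : Type} [Field K] [Algebra ℂ K] {N n : ℕ} {y : Fin (N + 1) → K}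
    {Δ : Place ℂ K → ℚ} (h : 0 ≤ kodairaDim y n Δ) : PseudoEffective y n Δ := by
  have h00 : Effective y (0 : Place ℂ K → ℚ) := ⟨fun _ _ => le_rfl, by simp⟩
  refine ⟨0, h00, ?_⟩
  by_contra hcon
  rw [(not_psef h00 hcon).1] at h
  exact absurd h (by simp)

section

variable {K : Type} [Field K] [Algebra ℂ K] {N p c : ℕ} {y : Fin (N + 1) → K}
  {Δ : Place ℂ K → ℚ} {r s : Fin c → ℕ} {w : ∀ j, Fin (s j) → ℚ} {L : IntermediateField ℂ K}
  {K' : Type} [Field K'] [Algebra ℂ K'] [Algebra K K'] [IsScalarTower ℂ K K']
  [FiniteDimensional K K'] {A : ∀ j, Fin (s j) → Fin (r j + 1) → K'}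
  {u : (Σ j, Fin (r j)) → K'}

theorem nonvanishing_of (hy : IsPair y (p + ∑ j, r j) Δ)
    (hw : ∀ j, 1 ≤ r j ∧ ∀ i, 0 ≤ w j i ∧ w j i ≤ 1)
    (hA : LcArr (upF K' L) A w) (hu : IsTranscendenceBasis (upF K' L) u)
    (hC : Cor y (p + ∑ j, r j) Δ (upF K' L) A u w)
    (hK : (∀ j, (r j + 1 : ℚ) ≤ ∑ i, w j i) → KodairaGe (p + ∑ j, r j) {P | IsPrimeDivisor y P}
      (fun P => (Δ P : ℝ)) (big r s w)) : Nonvanishing y (p + ∑ j, r j) Δ r s w := by
  have hkod : (∀ j, (r j + 1 : ℚ) ≤ ∑ i, w j i) →
      ((big r s w : ℕ) : WithBot ℕ) ≤ kodairaDim y (p + ∑ j, r j) Δ := fun h =>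
    lc_nv hy.1 hy.2.1 hy.2.2 hA.1 hu (fun j => (hw j).1) (fun j i => ((hw j).2 i).1)
      (fun j i => ((hw j).2 i).2) hC h (Nat.le_add_left _ _) (hK h)
  have h0 : (0 : WithBot ℕ) ≤ ((big r s w : ℕ) : WithBot ℕ) := by exact_mod_cast Nat.zero_le _
  have hws : PseudoEffective y (p + ∑ j, r j) Δ → ∀ j, (r j + 1 : ℚ) ≤ ∑ i, w j i := by
    rintro ⟨A', hA', h⟩
    by_contra hcon
    push Not at hcon
    obtain ⟨m0, hm0⟩ := (lc_sec hy.1 hy.2.1 hy.2.2 hA.1 hu (fun j => (hw j).1)
      (fun j i => ((hw j).2 i).1) (fun j i => ((hw j).2 i).2) hC).1 hcon A' hA'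
    obtain ⟨m, hm, ω, hω, hω0⟩ := h m0
    exact hω0 (hm0 m hm ω hω)
  exact ⟨⟨fun h => h0.trans (hkod (hws h)), psef_of⟩,
    ⟨fun h => hws (psef_of h), fun h => h0.trans (hkod h)⟩, fun h => hkod (hws (psef_of h))⟩

theorem dimensions_of (hy : IsPair y (p + ∑ j, r j) Δ)
    (hw : ∀ j, 1 ≤ r j ∧ ∀ i, 0 ≤ w j i ∧ w j i ≤ 1)
    (hA : LcArr (upF K' L) A w) (hu : IsTranscendenceBasis (upF K' L) u)
    (hC : Cor y (p + ∑ j, r j) Δ (upF K' L) A u w)
    (hK : (∀ j, (r j + 1 : ℚ) ≤ ∑ i, w j i) → KodairaGe (p + ∑ j, r j) {P | IsPrimeDivisor y P}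
      (fun P => (Δ P : ℝ)) (p + big r s w)) : Dimensions y (p + ∑ j, r j) p Δ r s w := by
  obtain ⟨h1, h2⟩ := lc_ab hy.1 hy.2.1 hy.2.2 hA.1 hu (fun j => (hw j).1)
    (fun j i => ((hw j).2 i).1) (fun j i => ((hw j).2 i).2) hC
  intro h0
  have h : ∀ j, (r j + 1 : ℚ) ≤ ∑ i, w j i := by
    by_contra hcon
    push Not at hcon
    rw [(h1 hcon).1] at h0
    exact absurd h0 (by simp)
  refine h2 (p + big r s w) h ?_ (hK h)
  rw [add_assoc, big, ← Finset.sum_add_distrib]
  congr 1
  refine Finset.sum_congr rfl fun j _ => ?_
  rcases lt_or_eq_of_le (h j) with h3 | h3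
  · rw [if_pos h3, if_neg h3.ne', add_zero]
  · rw [if_neg (not_lt.2 h3.symm.le), if_pos h3.symm, zero_add]

end

/-- **Nonvanishing.** Let `(X, Δ)` be a projective pair of dimension `d + ∑ j, r j`, `V` a linear
system of dimension `n` on `X` whose map has an image of dimension `d ≤ n`, `φ i` nonzero members with
weights `β i` and `G` groups of members, `0 ≤ t i ≤ 1` with `∑ β i (t i) = n + 1`, and
`(1 - t i) mult_P (D i) ≥ σ (1 - Δ_P)` for all prime divisors `P` which are components of `D i`, where
`σ ≥ (n - d + 1) (1 + γ (n - d) / 2)`. Let the fibres be as in `Fibres`. Then `K_X + Δ` is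
pseudo-effective if and only if `κ(K_X + Δ) ≥ 0`, if and only if `r j + 1 ≤ ∑ i, w j i` for all `j`,
and then `κ(K_X + Δ)` is at least the sum `l` of the `r j` with `r j + 1 < ∑ i, w j i`. If `σ` is
greater than the bound and the `t i` are less than `1` then moreover
`κ(K_X + Δ) = ν(K_X + Δ) = d + l`. -/
theorem result (d n q G : ℕ) (hdn : d ≤ n) (hG : 1 ≤ G) (β t : Fin q → ℚ)
    (ht0 : ∀ i, 0 ≤ t i) (ht1 : ∀ i, t i ≤ 1) (hβt : ∑ i, β i * t i = n + 1) (γ σ : ℝ)
    (hγ : 0 ≤ γ) (hσ : bound d n γ ≤ σ) (K : Type) [Field K] [Algebra ℂ K] (N c : ℕ)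
    (r s : Fin c → ℕ) (y : Fin (N + 1) → K) (Δ : Place ℂ K → ℚ) (hy : IsPair y (d + ∑ j, r j) Δ)
    (V : Submodule ℂ K) (hV : Module.finrank ℂ V = n + 1)
    (hd : Algebra.trdeg ℂ (imageField V) = d)
    (φ : Fin q → K) (hφ0 : ∀ i, φ i ≠ 0) (hφV : ∀ i, φ i ∈ V) (hβ : Weights V φ β)
    (A : Fin G → Finset (Fin q)) (hA : Groups V φ A γ) (h : Powerful y V φ t Δ σ)
    (w : ∀ j, Fin (s j) → ℚ) (hF : Fibres y (d + ∑ j, r j) Δ (imageField V) r s w) :
    Nonvanishing y (d + ∑ j, r j) Δ r s w ∧
      (bound d n γ < σ → (∀ i, t i < 1) → Dimensions y (d + ∑ j, r j) d Δ r s w) := by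
  obtain ⟨hw, K', _, _, _, _, _, B, u, hB, hu, hH, hC⟩ := hF
  obtain ⟨κ, hκ, hκs⟩ := exists_idx r s w
  have key := fun hws : ∀ j, (r j + 1 : ℚ) ≤ ∑ i, w j i =>
    Pool.Agent.K3h50.MF.pm_lc (k := n - d) (X := {P | IsPrimeDivisor y P})
      (δ := fun P => (Δ P : ℝ)) (by omega) hG ht0 ht1 hβt hγ hσ hy.2.1 hV hd hφ0 hφV hβ hA
      (fun P hP => by exact_mod_cast hy.2.2.1 P hP)
      (fun P hP _ a ha hex i hi => h P hP a ha hex i hi) hB finSigmaFinEquiv hu
      (fun j i => ((hw j).2 i).1) hws hκ hκs hH
  exact ⟨nonvanishing_of hy hw hB hu hC fun hws => (key hws).1,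
    fun h1 h2 => dimensions_of hy hw hB hu hC fun hws => (key hws).2 h1 h2⟩

end Pool.Agent.Results.MP_bc213e_ag.FibredPowerfulMembers
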