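import Pool.Agent.K3h47.NC.Swi

/-!
# Nonvanishing and abundance for pairs commensurable with log canonical configurations of
hypersurfaces

Let `F k`, `k = 0, ..., n`, be nonzero forms of degrees `d k ≥ 1` in `n + 1` variables without a
common zero in the projective `n`-space, such that the pair which consists of the projective space and
the sum `D` of the hypersurfaces `D k`, `F k = 0`, is log canonical (`IsLogCanonical`); for instance
smooth hypersurfaces with normal crossings (`normalCrossings_logCanonical` at the end of this file),
but the hypersurfaces may be singular: nodal curves, surfaces with ordinary double curves, triple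
points and pinch points or with simple elliptic singularities. For a prime divisor `Q` over the
projective space let `mult Q` be the vector of the multiplicities of the `D k` along `Q`; `Q` is an lc
place (`IsLcPlace`) if its log discrepancy with respect to `D` is zero, for instance a toroidal divisor
in the case of normal crossings.

Let `A` be a function of the multiplicities with finitely many values in `[0, 1]`, `A 0 = 1` and
`A (t v) ≤ t A v` for `t = 1, 2, ...`. We think of `A (mult Q)` as a bound for the log discrepancies: it
defines, on all birational models of the projective space at once, the boundary `Δ_A` with the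
coefficient `1 - A (mult Q)` at `Q`; it is zero outside the preimage of `D`.

**The pairs.** Let `(X, Δ)` be a projective normal pair of dimension `n` with function field `K`, and
let `M` be a common finite extension of `K` and of the function field of the projective space. A prime
divisor `P'` of `M` lies over a prime divisor `P` of `K`, with the ramification index `e`, and over a
prime divisor `Q` over the projective space, with the ramification index `e'`. The log discrepancies
of the pull-backs of the pairs to `M` are `e (1 - Δ P)`, for the prime divisors `P` of `X`, and
`e' A (mult Q)` for the boundary `Δ_A`, and `e'` for the projective space without a boundary. We assume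
(`IsCommensurable`): `e' A (mult Q) ≤ e (1 - Δ P) ≤ e'` for all prime divisors `P` of `X`, with equality
on the left hand side if `Q` is an lc place, and the log discrepancy of `(X, Δ)` is at least
`e' A (mult Q) / e` for all `P` over `X`. So the pull-back of `K_X + Δ` is between the ones of the
canonical class and of `K + Δ_A`, and it is equal to the latter at the lc places. These pairs are log
canonical. Examples:

* `K = M` is the function field of an abelian cover `Y` of the projective space which is branched
  along the `D k` and `X` is birational to `Y` (then `e = 1` and `e'` is a function of `mult Q`): `X`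
  smooth, or with canonical singularities, and `Δ = 0`, with `A = 1 / e'`; or `X = Y` and `Δ` a sum of
  the preimages of the `D k` with any coefficients in `[0, 1]`; or a toroidal modification of `Y` and a
  toroidal boundary, given by the multiplicities. The coefficients of `Δ` at the prime divisors which
  are not lc places of `(Y, D_Y)` may be smaller.
* The quotients of these pairs by finite groups of automorphisms of `Y` (which need not commute with
  the Galois group of `Y` over the projective space, for instance if they permute the `D k`): here
  `M` is the function field of `Y`, `K` is the field of invariants, and `1 - Δ P` is divided by the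
  ramification index. For instance manifolds `X` with a finite etale cover which is birational to `Y`.
* Projective spaces, weighted projective spaces and toric or other quotients with boundaries.

**The theorem.** Let the `polyhedron` be the set of the rational solutions `y` of
`∑ k, d k * y k = ∑ k, (d k - 1)` and `∑ k, v k * y k ≥ A v` for all vectors `v` of nonnegative integers
which are not zero and not all positive. If it is not empty then
`κ (X, K_X + Δ) = ν (X, K_X + Δ)` is the dimension of the polyhedron. If it is empty then
`κ (X, K_X + Δ) = -∞` and `K_X + Δ` is not pseudo-effective (in particular not nef): for all effective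
divisors `B` on `X` the divisors `m (K_X + Δ) + B` have only the section zero for all large `m`. So
nonvanishing and the equality of the Kodaira dimension and the numerical dimension hold for all these
pairs, with an explicit criterion and an explicit value.

Proof. Sections are pulled back to a Galois cover of `M`, and norms and elementary symmetric functions
are used in the other direction (`fin_all`, `pulled_data` in the starting files, written for
nondegenerate pairs). On the projective space, the forms `∏ k, F k ^ (y k - 1) * Ω` are sections because
the configuration is log canonical. For the upper bounds one uses the finite map of the projective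
space to itself with the coordinates `F k ^ (E / d k)`, `E = ∏ k, d k`, and traces to the field of
rational functions in these coordinates: they are Laurent polynomials, and the order at the divisors
with the multiplicities `v` gives the inequality of the polyhedron for `v`, up to bounded terms. (At
these divisors the Jacobian determinant of the map is a unit, because the pair is log canonical.) The
exponents of these Laurent polynomials are counted with the lemma of Farkas; finitely many `v` suffice
by the lemma of Dickson.

The definitions `NormalModel` (a normal projective variety, given by its generic point `y`),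
`IsPrimeDivisor`, `Effective`, `Integral`, `h0`, `kodairaDim`, `numericalDim` are in
`Pool/Agent/Y172/Defs.lean`, `LogDisc` (the log discrepancy along `P` is at least `α`) in
`Pool/Agent/Y191/Disc.lean`, `LiesOn` in `Pool/Agent/Y174/BDefs.lean`.
-/

set_option autoImplicit false

open FF MvPolynomial Pool.Agent.W602.GT
open Pool.Agent.Y172 (NormalModel Effective Integral IsPrimeDivisor kodairaDim numericalDim h0)
open Pool.Agent.Y191 (LogDisc)
open Pool.Agent.Y174 (LiesOn)

namespace Pool.Agent.Results.MP_bc213e_ag.LogCanonicalConfigurations

section hypersurfaces

variable {n : ℕ} {L : Type} [Field L] [Algebra ℂ L]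

/-- The minimal order at `Q` of the homogeneous coordinates `x`. -/
noncomputable def minOrd (x : Fin (n + 1) → L) (Q : Place ℂ L) : ℤ :=
  Finset.univ.inf' Finset.univ_nonempty fun l => Q.ord (x l)

/-- The multiplicities of the hypersurfaces `F k = 0` along the prime divisor `Q`. -/
noncomputable def mult (F : Fin (n + 1) → MvPolynomial (Fin (n + 1)) ℂ) (d : Fin (n + 1) → ℕ)
    (x : Fin (n + 1) → L) (Q : Place ℂ L) (k : Fin (n + 1)) : ℕ :=
  (Q.ord (aeval x (F k)) - d k * minOrd x Q).toNat

/-- The form `Ω = det (x, dx, ..., dx)` of degree `n + 1`, a function of `n` vector fields. -/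
noncomputable def Omega (x : Fin (n + 1) → L) (D : Fin n → Derivation ℂ L L) : L :=
  (Matrix.of fun i j => (Fin.cases (x j) (fun l => D l (x j)) i : L)).det

/-- The order at `Q` of the value of the form `Ω / ∏ k, F k` on the vector fields `D` (the
homogeneous coordinates being normalized so that their minimal order at `Q` is zero). -/
noncomputable def logOrd (F : Fin (n + 1) → MvPolynomial (Fin (n + 1)) ℂ) (d : Fin (n + 1) → ℕ)
    (x : Fin (n + 1) → L) (Q : Place ℂ L) (D : Fin n → Derivation ℂ L L) : ℤ :=
  Q.ord (Omega x D) - (n + 1) * minOrd x Q - ∑ k, (mult F d x Q k : ℤ)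

/-- The prime divisor `Q` is an lc place: the form `Ω / ∏ k, F k` has a pole along `Q`. -/
def IsLcPlace (F : Fin (n + 1) → MvPolynomial (Fin (n + 1)) ℂ) (d : Fin (n + 1) → ℕ)
    (x : Fin (n + 1) → L) (Q : Place ℂ L) : Prop :=
  ∃ D : Fin n → Derivation ℂ L L, (∀ c, DerReg Q (D c)) ∧ Omega x D ≠ 0 ∧ logOrd F d x Q D < 0

end hypersurfaces

/-- The field of rational functions in `n` variables, the function field of the projective space. -/
abbrev RatFun (n : ℕ) : Type := FractionRing (MvPolynomial (Fin n) ℂ)

/-- The homogeneous coordinates of the generic point of the projective space. -/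
noncomputable def generic (n : ℕ) (j : Fin (n + 1)) : RatFun n :=
  Fin.cases 1 (fun b => algebraMap _ _ (X b : MvPolynomial (Fin n) ℂ)) j

/-- The projective space with the sum of the hypersurfaces `F k = 0` is a log canonical pair: the
form `Ω / ∏ k, F k` has at most logarithmic poles at all prime divisors over the projective space
(its values on logarithmic vector fields are regular). -/
def IsLogCanonical {n : ℕ} (F : Fin (n + 1) → MvPolynomial (Fin (n + 1)) ℂ)
    (d : Fin (n + 1) → ℕ) : Prop :=
  ∀ Q : Place ℂ (RatFun n), Divisorial n Q →
    ∀ D : Fin n → Derivation ℂ (RatFun n) (RatFun n), (∀ c, DerLog Q (D c)) →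
      Omega (generic n) D = 0 ∨ 0 ≤ logOrd F d (generic n) Q D

/-- The hypersurfaces `F k = 0` have normal crossings: at every point of the projective space the
gradients of the forms `F k` which vanish at this point are linearly independent. -/
def NormalCrossings {n : ℕ} (F : Fin (n + 1) → MvPolynomial (Fin (n + 1)) ℂ) : Prop :=
  ∀ x : Fin (n + 1) → ℂ, x ≠ 0 → LinearIndependent ℂ
    fun (k : {k // eval x (F k) = 0}) (l : Fin (n + 1)) => eval x (pderiv l (F k.1))

/-- `A` is a bound for the log discrepancies: a function of the multiplicities with finitely many
values, between `0` and `1`, `A 0 = 1` and `A (t v) ≤ t A v` for the vectors `v` which are not zero and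
not all positive. -/
structure IsBound {n : ℕ} (A : (Fin (n + 1) → ℕ) → ℚ) : Prop where
  bounds : ∀ v, 0 ≤ A v ∧ A v ≤ 1
  zero : A 0 = 1
  finite : (Set.range A).Finite
  smul : ∀ v, v ≠ 0 → (∃ k, v k = 0) → ∀ t : ℕ, 1 ≤ t → A (t • v) ≤ t * A v

/-- The exponents of the sections. -/
def polyhedron {n : ℕ} (d : Fin (n + 1) → ℕ) (A : (Fin (n + 1) → ℕ) → ℚ) :
    Set (Fin (n + 1) → ℚ) :=
  {y | ∑ k, (d k : ℚ) * y k = ∑ k, ((d k : ℚ) - 1) ∧
    ∀ v : Fin (n + 1) → ℕ, v ≠ 0 → (∃ k, v k = 0) → A v ≤ ∑ k, (v k : ℚ) * y k}

/-- The pair `(X, Δ)`, where `X` is a normal projective variety with the generic point `y` and the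
function field `K`, is commensurable with the configuration of the hypersurfaces `F k = 0`, with the
bound `A` for the log discrepancies, by means of the common finite extension `M` of `K` and of the
function field of the projective space. -/
structure IsCommensurable {n : ℕ} (F : Fin (n + 1) → MvPolynomial (Fin (n + 1)) ℂ)
    (d : Fin (n + 1) → ℕ) (A : (Fin (n + 1) → ℕ) → ℚ) {K : Type} [Field K] [Algebra ℂ K]
    (M : Type) [Field M] [Algebra ℂ M] [Algebra K M] [Algebra (RatFun n) M] {N : ℕ}
    (y : Fin (N + 1) → K) (Δ : Place ℂ K → ℚ) : Prop where
  normal : NormalModel y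
  effective : Effective y Δ
  coeff : ∀ P, IsPrimeDivisor y P → ∀ (P' : Place ℂ M) (Q : Place ℂ (RatFun n)) (e e' : ℕ),
    LiesOn P' P e → LiesOn P' Q e' →
      (e' : ℚ) * A (mult F d (generic n) Q) ≤ e * (1 - Δ P) ∧ (e : ℚ) * (1 - Δ P) ≤ e' ∧
      (IsLcPlace F d (generic n) Q → (e : ℚ) * (1 - Δ P) = e' * A (mult F d (generic n) Q))
  disc : ∀ P, Divisorial n P → ∀ (P' : Place ℂ M) (Q : Place ℂ (RatFun n)) (e e' : ℕ),
    LiesOn P' P e → LiesOn P' Q e' → LogDisc y n Δ P (e' * A (mult F d (generic n) Q) / e)

/-- **Nonvanishing and abundance.** Let `F k = 0` (`k = 0, ..., n`) be hypersurfaces of the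
projective `n`-space without a common point which form a log canonical pair with the projective
space, `A` a bound for the log discrepancies, and `(X, Δ)` a projective pair of dimension `n` which is
commensurable with this configuration. If the polyhedron is not empty then the Kodaira dimension and
the numerical dimension of `K_X + Δ` are equal to its dimension. If it is empty then the Kodaira
dimension is `-∞` and `K_X + Δ` is not pseudo-effective. -/
theorem result (n : ℕ) (hn : 1 ≤ n) (d : Fin (n + 1) → ℕ) (hd : ∀ k, 1 ≤ d k)
    (F : Fin (n + 1) → MvPolynomial (Fin (n + 1)) ℂ) (hF : ∀ k, (F k).IsHomogeneous (d k))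
    (hF0 : ∀ k, F k ≠ 0) (hF1 : ∀ x : Fin (n + 1) → ℂ, x ≠ 0 → ∃ k, eval x (F k) ≠ 0)
    (hlc : IsLogCanonical F d) (A : (Fin (n + 1) → ℕ) → ℚ) (hA : IsBound A)
    {K M : Type} [Field K] [Field M] [Algebra ℂ K] [Algebra ℂ M] [Algebra K M]
    [Algebra (RatFun n) M] [IsScalarTower ℂ K M] [IsScalarTower ℂ (RatFun n) M]
    [FiniteDimensional K M] [FiniteDimensional (RatFun n) M] {N : ℕ} {y : Fin (N + 1) → K}
    {Δ : Place ℂ K → ℚ} (hy : IsCommensurable F d A M y Δ) :
    ((polyhedron d A).Nonempty →
      kodairaDim y n Δ = (Module.finrank ℚ (vectorSpan ℚ (polyhedron d A)) : WithBot ℕ) ∧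
      ∀ B, Effective y B → Integral y B →
        numericalDim y n Δ B = (Module.finrank ℚ (vectorSpan ℚ (polyhedron d A)) : EReal)) ∧
    (polyhedron d A = ∅ → kodairaDim y n Δ = ⊥ ∧
      ∀ B, Effective y B → ∃ m₀ : ℕ, ∀ m : ℕ, m₀ ≤ m → h0 y n m (m • Δ + B) = 0) := by
  obtain ⟨h1, h2⟩ := Pool.Agent.K3h47.NC.config_btw (K := K) (M := M) hn d hd F hF hF0 hF1 hlc A
    hA.bounds hA.zero hA.finite hA.smul
    (y := y) (Δ := Δ) ⟨hy.normal, hy.effective, hy.coeff, hy.disc⟩
  exact ⟨fun h => h1 h, fun h => ⟨(h2 h).1, fun B hB => ((h2 h).2 B hB).1⟩⟩

/-- Smooth hypersurfaces with normal crossings have no common point and form a log canonical pair with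
the projective space. -/
theorem normalCrossings_logCanonical {n : ℕ} {d : Fin (n + 1) → ℕ}
    {F : Fin (n + 1) → MvPolynomial (Fin (n + 1)) ℂ} (hF : ∀ k, (F k).IsHomogeneous (d k))
    (hs : NormalCrossings F) : (∀ k, F k ≠ 0) ∧
      (∀ x : Fin (n + 1) → ℂ, x ≠ 0 → ∃ k, eval x (F k) ≠ 0) ∧ IsLogCanonical F d :=
  Pool.Agent.K3h47.NC.snc_final hF hs

end Pool.Agent.Results.MP_bc213e_ag.LogCanonicalConfigurations
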