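import Pool.Agent.K3h50.MW.Fin

/-!
# Effective nonvanishing for pairs with many powerful members of a linear system

Let `X` be a normal projective variety of dimension `d`, `Δ ≥ 0` an `ℝ`-divisor on `X`, for instance
the boundary of an l.c. pair, and `|V|` a linear system on `X` without fixed components, of dimension
`n > d`, which defines a generically finite rational map from `X` onto its image, a nondegenerate
subvariety of dimension `d` of `n`-dimensional projective space; the image may be any variety. Let
`D i` (`i < q`) be finitely many members of `|V|`, in arbitrary position, with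

* rational weights `β i ≥ 0` such that the members in a proper linear subsystem, given by a subspace
  `F` of `V`, have total weight at most `dim F` (for members in general position: `β i = 1`; for
  members in `N`-subgeneral position: `β i = 1 / (N - n + 1)`, or the Nochka weights);
* `G` groups of members, each of which spans `V`, such that at most `c G dim F` of the groups meet a
  given proper subsystem `F` (in general position, for `G` disjoint groups of `n + 1` members:
  `c = 1 / G`; in `N`-subgeneral position, for `G` disjoint groups of `N + 1` members:
  `c = (N - n + 1) / G`; one group which contains all members: `c = 1`);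
* rational numbers `0 ≤ y i ≤ 1` such that `∑ β i (y i) = n + 1`.

If for all prime divisors `P` of `X` and all `i` such that `P` is a component of `D i`

  `(1 - y i) mult_P (D i) ≥ s (1 - δ P)`,   `s ≥ (n - d + 1) (1 + c (n - d) / 2)`,

where `δ P` is the coefficient of `P` in `Δ`, then `T (K_X + Δ)` has a nonzero section, for
`T = M (G (n - d + 1) (n - d + 2))!`, where `M` is a common denominator of the numbers `β i (y i)`;
if `s` is greater than this bound and the `y i` are less than `1` then `K_X + Δ` is big, and
`t T (K_X + Δ)` has sections with `d` algebraically independent ratios, for `t` such that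
`t (1 - bound / s) (1 - y i) ≥ 1` for all `i`. Nefness is not needed and the multiples depend only on
the numerical data. For instance, for members in general position with
`mult_P (D i) ≥ m i (1 - δ P)` at their components `P`, the condition is

  `∑ max (0, 1 - s / m i) ≥ n + 1`,

and `s` tends to the truncation level `n - d + 1` if the number of members tends to infinity. In
`LinearSystemNonvanishing` of the starting repository the multiplicities have to be at least
`(n + 2) (n - d + 1) (n - d + 2) / 2`, for every number of members, and the multiples are not
bounded.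

The function-field language of the starting repository is used. `K` is the function field of `X`;
the prime divisors of `X` are places `P` of `K` (`Place`, `Divisorial`), `P.ord` is the order along
`P`, and `X` is given by the set of its prime divisors. The linear system is given by the finite
dimensional space `V` of rational functions: if `a` is the minimum of the orders at `P` of the
members of `V` then the multiplicity of `P` in the divisor of the system which is given by `f ∈ V` is
`P.ord f - a`. A section of `N (K_X + Δ)` is an `N`-canonical form `ω` (`IsPluri`), a function of `d`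
rational vector fields, whose value on vector fields that are regular at `P` has order at least
`- N δ P`, for all prime divisors `P` of `X`.

Proof (`Pool.Agent.K3h50.MW`). The form is a power of the product of `G` generalised Wronskians
divided by a product of powers of the members. The words in the rows of the Wronskian number `s`
are words in the first order operators of helper152 (`Pool.Agent.TH152.HY.Words`) which use only the
members of the group number `s`; they are chosen of minimal total length, and then their lengths are
at most `n - d + 1`. At a prime divisor `P` whose members span a subspace of dimension `k'`, a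
Wronskian whose group has no member which vanishes at `P` loses only `(n - d + 1) k'` instead of
`(n - d + 1) (n - d + 2) / 2`, and by the condition on the groups there are only few other ones. The
losses are compensated by the multiplicities, by the greedy algorithm for the bases of maximal
weight.
-/

set_option autoImplicit false

open FF Pool.Agent.W602.GT

namespace Pool.Agent.Results.MP_bc213e_ag.ManyPowerfulMembers

/-- The rational map which is given by the linear system `V` is generically finite onto its image:
the function field `K` is algebraic over the field generated by the quotients of the members. -/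
def GenericallyFinite {K : Type} [Field K] [Algebra ℂ K] (V : Submodule ℂ K) : Prop :=
  Algebra.IsAlgebraic (IntermediateField.adjoin ℂ {y : K | ∃ f ∈ V, ∃ g ∈ V, y = f / g}) K

open Classical in
/-- The weights `β i` of the members `φ i` of `V`: they are not negative and the members in a proper
subspace `F` of `V` have total weight at most `dim F`. -/
def Weights {q : ℕ} {K : Type} [Field K] [Algebra ℂ K] (V : Submodule ℂ K) (φ : Fin q → K)
    (β : Fin q → ℚ) : Prop :=
  (∀ i, 0 ≤ β i) ∧ ∀ F : Submodule ℂ K, F < V →
    ∑ i ∈ Finset.univ.filter (fun i => φ i ∈ F), β i ≤ Module.finrank ℂ F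

open Classical in
/-- The groups `A s` (`s < G`) of members of `V`: each group spans `V`, and a proper subspace `F` of
`V` contains members from at most `c G dim F` of the groups. -/
def Groups {q G : ℕ} {K : Type} [Field K] [Algebra ℂ K] (V : Submodule ℂ K) (φ : Fin q → K)
    (A : Fin G → Finset (Fin q)) (c : ℝ) : Prop :=
  (∀ s, Submodule.span ℂ (φ '' (A s : Set (Fin q))) = V) ∧
  ∀ F : Submodule ℂ K, F < V →
    ((Finset.univ.filter (fun s => ∃ i ∈ A s, φ i ∈ F)).card : ℝ) ≤
      c * G * Module.finrank ℂ F

/-- The bound `(n - d + 1) (1 + c (n - d) / 2)`. -/
noncomputable def bound (d n : ℕ) (c : ℝ) : ℝ :=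
  ((n : ℝ) - d + 1) * (1 + c * ((n : ℝ) - d) / 2)

/-- The condition on the multiplicities: if the prime divisor `P` of `X` is a component of the divisor
`D i` (the order of `φ i` at `P` is not the minimum `a` of the orders of the members of `V`), then
`s (1 - δ P)` is at most `(1 - y i)` times the multiplicity of `P` in `D i`. -/
def Powerful (d : ℕ) {q : ℕ} {K : Type} [Field K] [Algebra ℂ K] (V : Submodule ℂ K)
    (φ : Fin q → K) (y : Fin q → ℚ) (X : Set (Place ℂ K)) (δ : Place ℂ K → ℝ) (s : ℝ) : Prop :=
  ∀ P ∈ X, Divisorial d P → ∀ a : ℤ, (∀ f ∈ V, f = 0 ∨ a ≤ P.ord f) →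
    (∃ f ∈ V, f ≠ 0 ∧ P.ord f = a) → ∀ i, P.ord (φ i) ≠ a →
      s * (1 - δ P) ≤ (1 - y i) * ((P.ord (φ i) - a : ℤ) : ℝ)

/-- `ω` is a section of `N (K_X + Δ)`, where `X` is given by the set of its prime divisors, and `Δ` has
the coefficient `δ P` at `P`: an `N`-canonical form whose values on vector fields which are
regular at `P` have order at least `- N δ P`, for all prime divisors `P` of `X`. -/
def IsSection {K : Type} [Field K] [Algebra ℂ K] (d : ℕ) (X : Set (Place ℂ K))
    (δ : Place ℂ K → ℝ) (N : ℕ) (ω : (Fin d → Derivation ℂ K K) → K) : Prop :=
  IsPluri N ω ∧ ∀ P ∈ X, Divisorial d P → ∀ D : Fin d → Derivation ℂ K K,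
    (∀ i, DerReg P (D i)) → ω D = 0 ∨ -(N * δ P) ≤ (P.ord (ω D) : ℝ)

/-- **Effective nonvanishing.** Let `K` be the function field of a variety `X` of dimension `d`, `V` a
linear system of dimension `n > d` on `X` which defines a generically finite map onto the image,
`φ i` nonzero members with weights `β i` and `G` groups of members as above, `0 ≤ y i ≤ 1` with
`∑ β i (y i) = n + 1` and `M β i (y i)` a natural number for all `i`. Let `Δ ≥ 0` be a real divisor on
`X` such that `(1 - y i) mult_P (D i) ≥ s (1 - δ P)` for all prime divisors `P` which are components of
`D i`, where `s ≥ (n - d + 1) (1 + c (n - d) / 2)`. Then `T (K_X + Δ)`,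
`T = M (G (n - d + 1) (n - d + 2))!`, has a nonzero section, and `M t (G (n - d + 1) (n - d + 2))!`
times `K_X + Δ` has `d + 1` sections with algebraically independent ratios, if
`t (1 - bound / s) (1 - y i) ≥ 1` for all `i`. -/
theorem result (d n q G M : ℕ) (hdn : d < n) (hG : 1 ≤ G) (hM : 1 ≤ M)
    (β y : Fin q → ℚ) (hy0 : ∀ i, 0 ≤ y i) (hy1 : ∀ i, y i ≤ 1)
    (hβy : ∑ i, β i * y i = n + 1) (hint : ∀ i, ∃ m : ℕ, M * (β i * y i) = m)
    (K : Type) [Field K] [Algebra ℂ K] (hK : Algebra.trdeg ℂ K = d)
    (V : Submodule ℂ K) (hV : Module.finrank ℂ V = n + 1) (hgf : GenericallyFinite V)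
    (φ : Fin q → K) (hφ0 : ∀ i, φ i ≠ 0) (hφV : ∀ i, φ i ∈ V) (hβ : Weights V φ β)
    (A : Fin G → Finset (Fin q)) (c : ℝ) (hc : 0 ≤ c) (hA : Groups V φ A c)
    (X : Set (Place ℂ K)) (δ : Place ℂ K → ℝ) (hδ : ∀ P ∈ X, 0 ≤ δ P) (s : ℝ)
    (hs : bound d n c ≤ s) (h : Powerful d V φ y X δ s) :
    (∃ ω, IsSection d X δ (M * (G * ((n - d + 1) * (n - d + 2))).factorial) ω ∧ ∃ D, ω D ≠ 0) ∧
    ∀ t : ℕ, (∀ i, 1 ≤ t * ((1 - bound d n c / s) * (1 - (y i : ℝ)))) →
      ∃ ω : Fin (d + 1) → (Fin d → Derivation ℂ K K) → K,
        (∀ j, IsSection d X δ (M * (t * (G * ((n - d + 1) * (n - d + 2))).factorial)) (ω j)) ∧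
        ∃ D, ω 0 D ≠ 0 ∧ AlgebraicIndependent ℂ (fun i : Fin d => ω i.succ D / ω 0 D) := by
  choose m hm using hint
  have hM0 : (M : ℚ) ≠ 0 := by
    have : M ≠ 0 := by omega
    exact_mod_cast this
  exact Pool.Agent.K3h50.MW.final (k := n - d) (by omega) hG hM
    (fun i => by rw [← hm i, mul_div_cancel_left₀ _ hM0]) hy0 hy1 hβy hc hs hK hV hgf hφ0 hφV hβ hA
    hδ h

end Pool.Agent.Results.MP_bc213e_ag.ManyPowerfulMembers
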